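import Pool.Agent.Helper31.DLS.Sim

/-!
# Functions on words which are computable in linear space
-/

namespace Pool.Agent.Helper31.DLS

open Pool.Agent.Helper65.LinSpace Pool.Agent.Helper78.Mpc Finset

/-- **Functions on words in linear space are linear-space functions on numbers**; values which are
too long are replaced by `0`. -/
theorem lincomp {f : List Bool → List Bool} (hf : LinComp f) (b : ℕ) :
    ∃ F : ℕ → ℕ, LS F ∧ ∀ w : List Bool,
      F (num w) = if (f w).length ≤ b * (w.length + 1) then num (f w) else 0 := by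
  obtain ⟨F0, hF0, hl0, h0⟩ := dls (hf false)
  obtain ⟨F1, hF1, hl1, h1⟩ := dls (hf true)
  let S : ℕ → ℕ := fun x => b * (Nat.log 2 x + 1)
  let B : ℕ → ℕ := fun x => 2 * (2 * 2 ^ Nat.log 2 x) ^ b
  have hS : LS S := by
    show LS fun x => b * (Nat.log 2 x + 1)
    fun_prop
  have hB : LS B := by
    have h : LS fun x => (2 * 2 ^ Nat.log 2 x) ^ b := LS.pow_const (by fun_prop) b
    show LS fun x => 2 * (2 * 2 ^ Nat.log 2 x) ^ b
    fun_prop
  have hBS : ∀ x, B x = 2 ^ (S x + 1) := by
    intro x
    show 2 * (2 * 2 ^ Nat.log 2 x) ^ b = 2 ^ (b * (Nat.log 2 x + 1) + 1)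
    rw [pow_succ, mul_comm b, pow_mul, pow_succ]
    ring
  let cnt : ℕ → ℕ := fun x => ∑ i ∈ range (S x + 1),
    lt01 0 (F0 (queryN (B x) i x) + F1 (queryN (B x) i x))
  have hq : LS (fun z : ℕ × ℕ => queryN (B z.1) z.2 z.1) := by fun_prop
  have hq0 : LS (fun z : ℕ × ℕ => F0 (queryN (B z.1) z.2 z.1)) :=
    LS.comp (g := F0) (f := fun z : ℕ × ℕ => queryN (B z.1) z.2 z.1) hF0 hq
  have hq1 : LS (fun z : ℕ × ℕ => F1 (queryN (B z.1) z.2 z.1)) :=
    LS.comp (g := F1) (f := fun z : ℕ × ℕ => queryN (B z.1) z.2 z.1) hF1 hq
  have hcl : ∀ x, cnt x ≤ S x + 1 := fun x =>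
    (sum_le_sum (g := fun _ => 1) fun i _ => by
      unfold lt01
      split_ifs <;> omega).trans (by simp)
  have hc : LS cnt := by
    refine LS.sum_le (N := fun x => S x + 1) (B := fun _ => 1)
      (f := fun x i => lt01 0 (F0 (queryN (B x) i x) + F1 (queryN (B x) i x)))
      (LS.lt01 (LS.const 0) (LS.add hq0 hq1)) (by fun_prop) (by fun_prop) ?_
    intro a i _
    unfold lt01
    split_ifs <;> omega
  have hb3 : ∀ x, 2 ^ cnt x ≤ B x := fun x => by
    rw [hBS]
    exact Nat.pow_le_pow_right (by norm_num) (hcl x)
  refine ⟨fun x => ifz (lt01 (S x) (cnt x)) (tab 2 (cnt x) (fun i => F1 (queryN (B x) i x)) +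
    2 ^ cnt x) 0, ?_, fun w => ?_⟩
  · refine LS.ifz (LS.lt01 hS hc) (LS.add ?_ ?_) (LS.const 0)
    · exact LS.tab (q := fun _ => 2) (m := cnt) (C := B)
        (d := fun x i => F1 (queryN (B x) i x)) hq1 (LS.const 2) hc hB
        (fun a i _ => hl1 _) hb3
    · exact LS.pow_of_le (f := fun _ => 2) (LS.const 2) hc hB hb3
  have hSw : S (num w) = b * (w.length + 1) := by
    show b * (Nat.log 2 (num w) + 1) = _
    rw [log_num]
  have hqn : ∀ i ≤ S (num w), queryN (B (num w)) i (num w) =
      num (List.replicate i true ++ false :: w) := by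
    intro i hi
    refine queryN_num ?_ w
    rw [hBS]
    exact Nat.pow_le_pow_right (by norm_num) (by omega)
  have hmem : ∀ (i : ℕ) (b : Bool), (List.replicate i true ++ false :: w) ∈
      {u : List Bool | ∃ (i : ℕ) (w : List Bool), u = List.replicate i true ++ false :: w ∧
        (f w)[i]? = some b} ↔ (f w)[i]? = some b := by
    intro i b
    constructor
    · rintro ⟨i', w', he, h⟩
      have hinj : ∀ (i i' : ℕ), List.replicate i true ++ false :: w =
          List.replicate i' true ++ false :: w' → i = i' ∧ w = w' := by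
        intro i
        induction i with
        | zero =>
          intro i' h
          rcases i' with _ | i'
          · simpa using h
          · simp [List.replicate_succ] at h
        | succ i ih =>
          intro i' h
          rcases i' with _ | i'
          · simp [List.replicate_succ] at h
          · simp only [List.replicate_succ, List.cons_append, List.cons.injEq, true_and] at h
            obtain ⟨h1, h2⟩ := ih i' h
            exact ⟨by omega, h2⟩
      obtain ⟨h2, h3⟩ := hinj i i' he
      subst h2
      subst h3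
      exact h
    · intro h
      exact ⟨i, w, rfl, h⟩
  have hu0 : ∀ i ≤ S (num w), F0 (queryN (B (num w)) i (num w)) = 1 ↔
      (f w)[i]? = some false := by
    intro i hi
    rw [hqn i hi, h0]
    exact hmem i false
  have hu1 : ∀ i ≤ S (num w), F1 (queryN (B (num w)) i (num w)) = 1 ↔
      (f w)[i]? = some true := by
    intro i hi
    rw [hqn i hi, h1]
    exact hmem i true
  have hcnt : cnt (num w) = min (f w).length (S (num w) + 1) := by
    refine sum_lt_ind (min_le_right _ _) fun i hi => ?_
    have a0 := hu0 i (by omega)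
    have a1 := hu1 i (by omega)
    have b0 := hl0 (queryN (B (num w)) i (num w))
    have b1 := hl1 (queryN (B (num w)) i (num w))
    by_cases h : i < (f w).length
    · rw [if_pos (by omega), lt01, if_pos]
      rw [List.getElem?_eq_getElem h] at a0 a1
      rcases hb : (f w)[i] with _ | _
      · rw [hb] at a0
        have := a0.2 rfl
        omega
      · rw [hb] at a1
        have := a1.2 rfl
        omega
    · rw [if_neg (by omega), lt01, if_neg]
      rw [List.getElem?_eq_none (by omega)] at a0 a1
      have c0 : F0 (queryN (B (num w)) i (num w)) ≠ 1 := fun h => by simpa using a0.1 h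
      have c1 : F1 (queryN (B (num w)) i (num w)) ≠ 1 := fun h => by simpa using a1.1 h
      omega
  show ifz (lt01 (S (num w)) (cnt (num w))) (tab 2 (cnt (num w)) (fun i =>
    F1 (queryN (B (num w)) i (num w))) + 2 ^ cnt (num w)) 0 = _
  rw [hcnt, ← hSw]
  by_cases h : (f w).length ≤ S (num w)
  · rw [if_pos h, lt01, if_neg (by omega), ifz_zero, min_eq_left (by omega)]
    refine (num_eq_tab (f w) _ fun i hi => ?_).symm
    have a1 := hu1 i (by omega)
    have b1 := hl1 (queryN (B (num w)) i (num w))
    rw [List.getElem?_eq_getElem hi] at a1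
    rcases hb : (f w)[i] with _ | _
    · rw [hb] at a1
      have c1 : F1 (queryN (B (num w)) i (num w)) ≠ 1 := fun h => by simpa using a1.1 h
      simp only [Bool.toNat_false]
      omega
    · rw [hb] at a1
      simp only [Bool.toNat_true]
      exact a1.2 rfl
  · rw [if_neg h, lt01, if_pos (by omega), ifz_ne one_ne_zero]

/-- The same without truncation. -/
theorem lincomp' {f : List Bool → List Bool} (hf : LinComp f) (b : ℕ)
    (hb : ∀ w, (f w).length ≤ b * (w.length + 1)) :
    ∃ F : ℕ → ℕ, LS F ∧ ∀ w : List Bool, F (num w) = num (f w) := by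
  obtain ⟨F, hF, h⟩ := lincomp hf b
  exact ⟨F, hF, fun w => by rw [h, if_pos (hb w)]⟩

/-- Letters of values of functions in linear space. -/
theorem lincomp_letter {f : List Bool → List Bool} (hf : LinComp f) :
    ∃ F : ℕ → ℕ, LS F ∧ ∀ (w : List Bool) (i : ℕ),
      F (num (List.replicate i true ++ false :: w)) = codeO (f w)[i]? := by
  obtain ⟨F0, hF0, hl0, h0⟩ := dls (hf false)
  obtain ⟨F1, hF1, hl1, h1⟩ := dls (hf true)
  have hinj : ∀ (i i' : ℕ) (w w' : List Bool), List.replicate i true ++ false :: w =
      List.replicate i' true ++ false :: w' → i = i' ∧ w = w' := by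
    intro i
    induction i with
    | zero =>
      intro i' w w' h
      rcases i' with _ | i'
      · simpa using h
      · simp [List.replicate_succ] at h
    | succ i ih =>
      intro i' w w' h
      rcases i' with _ | i'
      · simp [List.replicate_succ] at h
      · simp only [List.replicate_succ, List.cons_append, List.cons.injEq, true_and] at h
        obtain ⟨h1, h2⟩ := ih i' w w' h
        exact ⟨by omega, h2⟩
  have hmem : ∀ (w : List Bool) (i : ℕ) (b : Bool), (List.replicate i true ++ false :: w) ∈
      {u : List Bool | ∃ (i : ℕ) (w : List Bool), u = List.replicate i true ++ false :: w ∧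
        (f w)[i]? = some b} ↔ (f w)[i]? = some b := by
    intro w i b
    constructor
    · rintro ⟨i', w', he, h⟩
      obtain ⟨h2, h3⟩ := hinj i i' w w' he
      subst h2
      subst h3
      exact h
    · intro h
      exact ⟨i, w, rfl, h⟩
  refine ⟨fun x => ifz (eq01 (F0 x) 1) (ifz (eq01 (F1 x) 1) 0 2) 1, by fun_prop, fun w i => ?_⟩
  have a0 := (h0 (List.replicate i true ++ false :: w)).trans (hmem w i false)
  have a1 := (h1 (List.replicate i true ++ false :: w)).trans (hmem w i true)
  show ifz (eq01 (F0 (num _)) 1) (ifz (eq01 (F1 (num _)) 1) 0 2) 1 = _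
  rcases hv : (f w)[i]? with _ | _ | _
  · rw [hv] at a0 a1
    have c0 : F0 (num (List.replicate i true ++ false :: w)) ≠ 1 := fun h => by simpa using a0.1 h
    have c1 : F1 (num (List.replicate i true ++ false :: w)) ≠ 1 := fun h => by simpa using a1.1 h
    rw [eq01_ne c0, ifz_zero, eq01_ne c1, ifz_zero]
    rfl
  · rw [hv] at a0
    rw [eq01_of (a0.2 rfl), ifz_ne one_ne_zero]
    rfl
  · rw [hv] at a0 a1
    have c0 : F0 (num (List.replicate i true ++ false :: w)) ≠ 1 := fun h => by simpa using a0.1 h
    rw [eq01_ne c0, ifz_zero, eq01_of (a1.2 rfl), ifz_ne one_ne_zero]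
    rfl

end Pool.Agent.Helper31.DLS
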