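import Pool.Agent.Helper78.Mpc.Words

/-!
# Languages in linear space have linear-space characteristic functions

The configurations of the machine are coded in mixed radix: a large base for the state and the
positions of the heads, and a constant base for the contents of the cells.
-/

namespace Pool.Agent.Helper31.DLS

open Pool.Agent.Helper65.LinSpace Pool.Agent.Helper78.Mpc Finset

/-! ### Digits -/

theorem dig_add_pow {β m : ℕ} {d : ℕ → ℕ} (h : ∀ i < m, d i < β) (Y : ℕ) {j : ℕ} (hj : j < m) :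
    dig β (tab β m d + β ^ m * Y) j = d j := by
  have hβ : 0 < β := lt_of_le_of_lt (Nat.zero_le _) (h j hj)
  unfold dig
  obtain ⟨r, rfl⟩ : ∃ r, m = j + (r + 1) := ⟨m - j - 1, by omega⟩
  have e1 : β ^ (j + (r + 1)) * Y = β ^ j * (β * (β ^ r * Y)) := by
    rw [pow_add, pow_succ]
    ring
  rw [e1, Nat.add_mul_div_left _ _ (by positivity), Nat.add_mul_mod_self_left]
  exact dig_tab h hj

theorem div_add_pow {β m : ℕ} {d : ℕ → ℕ} (h : ∀ i < m, d i < β) (Y : ℕ) :
    (tab β m d + β ^ m * Y) / β ^ m = Y := by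
  have h1 := tab_lt h
  rw [Nat.add_mul_div_left _ _ (lt_of_le_of_lt (Nat.zero_le _) h1), Nat.div_eq_of_lt h1, zero_add]

theorem dig_tab_ge {β m : ℕ} {d : ℕ → ℕ} (h : ∀ i < m, d i < β) (hβ : 0 < β) {j : ℕ}
    (hj : m ≤ j) : dig β (tab β m d) j = 0 := by
  unfold dig
  rw [Nat.div_eq_of_lt, Nat.zero_mod]
  exact (tab_lt h).trans_le (Nat.pow_le_pow_right hβ hj)

/-- The digits of a configuration in mixed radix, `P` being the power `β ^ u` and `Λ` the number of
digits. -/
def dgM (β q u Λ P R j : ℕ) : ℕ :=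
  ifz (lt01 j Λ) 0 (ifz (lt01 j u) (dig q (R / P) (j - u)) (dig β R j))

/-- The number with given digits in mixed radix. -/
def tbM (β q u v P : ℕ) (D : ℕ → ℕ) : ℕ :=
  tab β u (fun j => D j % β) + P * tab q v (fun j => D (u + j) % q)

theorem tbM_congr {β q u v P : ℕ} {D D' : ℕ → ℕ} (h : ∀ j < u + v, D j = D' j) :
    tbM β q u v P D = tbM β q u v P D' := by
  unfold tbM
  have e1 : tab β u (fun j => D j % β) = tab β u (fun j => D' j % β) :=
    tab_congr fun i hi => congrArg (· % β) (h i (by omega))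
  have e2 : tab q v (fun j => D (u + j) % q) = tab q v (fun j => D' (u + j) % q) :=
    tab_congr fun i hi => congrArg (· % q) (h (u + i) (by omega))
  rw [e1, e2]

theorem tbM_lt {β q u v : ℕ} {D : ℕ → ℕ} (hβ : 0 < β) (hq : 0 < q) :
    tbM β q u v (β ^ u) D < β ^ u * q ^ v := by
  unfold tbM
  have h1 : tab β u (fun j => D j % β) < β ^ u := tab_lt fun _ _ => Nat.mod_lt _ hβ
  have h2 : tab q v (fun j => D (u + j) % q) < q ^ v := tab_lt fun _ _ => Nat.mod_lt _ hq
  calc _ < β ^ u + β ^ u * tab q v (fun j => D (u + j) % q) := Nat.add_lt_add_right h1 _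
    _ = β ^ u * (tab q v (fun j => D (u + j) % q) + 1) := by ring
    _ ≤ _ := Nat.mul_le_mul_left _ h2

theorem dgM_tbM {β q u v : ℕ} {D : ℕ → ℕ} (h1 : ∀ j < u, D j < β)
    (h2 : ∀ j < v, D (u + j) < q) (hβ : 0 < β) (hlt : ∀ j < u + v, D j < β) :
    dgM β q u (u + v) (β ^ u) (tbM β q u v (β ^ u) D) = dig β (tab β (u + v) D) := by
  funext j
  unfold dgM tbM
  have e1 : (fun j => D j % β) = fun j => D j % β := rfl
  have a1 : ∀ i < u, (fun j => D j % β) i < β := fun _ _ => Nat.mod_lt _ hβ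
  by_cases hj : j < u + v
  · rw [lt01, if_pos hj, ifz_ne one_ne_zero, dig_tab hlt hj]
    by_cases hj2 : j < u
    · rw [lt01, if_pos hj2, ifz_ne one_ne_zero, dig_add_pow a1 _ hj2]
      exact Nat.mod_eq_of_lt (h1 j hj2)
    · rw [lt01, if_neg hj2, ifz_zero, div_add_pow a1]
      have hq : 0 < q := lt_of_le_of_lt (Nat.zero_le _) (h2 (j - u) (by omega))
      rw [dig_tab (fun _ _ => Nat.mod_lt _ hq) (by omega : j - u < v)]
      have e2 : u + (j - u) = j := by omega
      rw [e2]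
      have := h2 (j - u) (by omega)
      rw [e2] at this
      exact Nat.mod_eq_of_lt this
  · rw [lt01, if_neg hj, ifz_zero, dig_tab_ge hlt hβ (by omega)]

/-! ### The step -/

/-- The code of the symbols read by the work heads. -/
def syD (k q o B : ℕ) (D : ℕ → ℕ) : ℕ :=
  ∑ i ∈ range k, D (2 + k + i * (2 * o + 1) + D (2 + i)) * capPow q i B

/-- The index of the transition table. -/
def bsD (k q qk o B x : ℕ) (D : ℕ → ℕ) : ℕ :=
  ((D 0 * 3 + inN x (D 1)) * qk + syD k q o B D) * (2 * k + 2)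

/-- The new digits, `bs` being the index of the transition table. -/
def ndD (k B0 T o x : ℕ) (D : ℕ → ℕ) (bs idx : ℕ) : ℕ :=
  ifz (dig B0 T bs) (D idx)
    (ifz idx (dig B0 T bs - 1)
      (ifz (idx - 1)
        (ifz (dig B0 T (bs + 1)) (D 1 - 1)
          (ifz (dig B0 T (bs + 1) - 1) (D 1) (min (D 1 + 1) (Nat.log 2 x + 1))))
        (ifz (lt01 idx (2 + k))
          (ifz (lt01 idx (2 + k + k * (2 * o + 1))) 0
            (ifz (eq01 ((idx - (2 + k)) % (2 * o + 1))
                (D (2 + (idx - (2 + k)) / (2 * o + 1))))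
              (D idx)
              (dig B0 T (bs + 2 + 2 * ((idx - (2 + k)) / (2 * o + 1))))))
          (D idx + dig B0 T (bs + 3 + 2 * (idx - 2)) - 1))))

theorem bsV_eq_bsD (k q qk o β x R : ℕ) : bsV k q qk o β x R = bsD k q qk o β x (dig β R) := rfl

theorem ndV_eq_ndD (k B0 T o β x R bs idx : ℕ) :
    ndV k B0 T o β x R bs idx = ndD k B0 T o x (dig β R) bs idx := rfl

/-- One step of the simulation. -/
def stM (k q qk B0 T o β x P R : ℕ) : ℕ :=
  tbM β q (2 + k) (k * (2 * o + 1)) P fun idx =>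
    ndD k B0 T o x (dgM β q (2 + k) (2 + k + k * (2 * o + 1)) P R)
      (bsD k q qk o β x (dgM β q (2 + k) (2 + k + k * (2 * o + 1)) P R)) idx % β

section

variable {k : ℕ} {M : TM k} {a q : ℕ} {eS : M.State ≃ Fin a} {eY : M.Sym ≃ Fin q}

theorem encC_tape (o : ℕ) (c : M.Cfg) {j : ℕ} (hj : j < k * (2 * o + 1)) :
    encC M eS eY o c (2 + k + j) < q := by
  unfold encC
  rw [if_neg (by omega), if_neg (by omega), if_neg (by omega), if_pos (by omega)]
  exact symN_lt _ _

theorem dgM_enc {o β : ℕ} {w : List Bool} {c : M.Cfg} (hc : InR o c)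
    (hin : c.inp ≤ w.length + 1) (hβ : a + q + 2 * o + w.length + 3 ≤ β) :
    dgM β q (2 + k) (2 + k + k * (2 * o + 1)) (β ^ (2 + k))
      (tbM β q (2 + k) (k * (2 * o + 1)) (β ^ (2 + k)) (encC M eS eY o c)) =
      dig β (tab β (2 + k + k * (2 * o + 1)) (encC M eS eY o c)) := by
  have hlt := encC_lt (eS := eS) (eY := eY) hc hin hβ
  exact dgM_tbM (fun j _ => hlt j) (fun j hj => encC_tape o c hj) (by omega) (fun j _ => hlt j)

theorem stM_eq {o β : ℕ} {w : List Bool} {c : M.Cfg} (hc : InR o c)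
    (hc' : InR o ((M.next w c).getD c)) (hin : c.inp ≤ w.length + 1)
    (hβ : a + q + 2 * o + w.length + 3 ≤ β) (hq : q ^ k ≤ β) :
    stM k q (q ^ k) (a + q + 4) (TT M eS eY) o β (num w) (β ^ (2 + k))
      (tbM β q (2 + k) (k * (2 * o + 1)) (β ^ (2 + k)) (encC M eS eY o c)) =
      tbM β q (2 + k) (k * (2 * o + 1)) (β ^ (2 + k))
        (encC M eS eY o ((M.next w c).getD c)) := by
  have hin' : ((M.next w c).getD c).inp ≤ w.length + 1 := by
    unfold TM.next
    rcases M.step c.state (inputSym w c.inp) (fun i => c.tape i (c.head i)) with _ | r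
    · exact hin
    · exact inputMove_le _ _ hin
  have hlt' := encC_lt (eS := eS) (eY := eY) hc' hin' hβ
  have hstep := stepV_eq (eS := eS) (eY := eY) hc hc' hin hβ hq
    (le_refl (2 + k + k * (2 * o + 1)))
  unfold stM
  rw [dgM_enc hc hin hβ]
  refine tbM_congr fun j hj => ?_
  have h1 : dig β _ j = dig β _ j := congrArg (fun z => dig β z j) hstep
  unfold stepV at h1
  rw [dig_tab (fun _ _ => Nat.mod_lt _ (by omega)) hj, dig_tab (fun _ _ => hlt' _) hj] at h1
  exact h1

/-- The initial configuration. -/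
def inM (k st b0 o β q P : ℕ) : ℕ :=
  tbM β q (2 + k) (k * (2 * o + 1)) P (fun idx => ifz idx st (ifz (idx - 1) 0 (ifz (lt01 idx (2 + k))
    (ifz (lt01 idx (2 + k + k * (2 * o + 1))) 0 b0) o)) % β)

theorem inM_eq {o β : ℕ} {w : List Bool} (hβ : a + q + 2 * o + w.length + 3 ≤ β) :
    inM k (eS M.start) (eY M.blank) o β q (β ^ (2 + k)) =
      tbM β q (2 + k) (k * (2 * o + 1)) (β ^ (2 + k)) (encC M eS eY o (M.run w 0)) := by
  have hR : InR o (M.run w 0) := fun i => by
    show |(0 : ℤ)| ≤ _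
    simp
  have hlt := encC_lt (eS := eS) (eY := eY) hR (w := w) (Nat.zero_le _) hβ
  have h := initV_eq (M := M) (eS := eS) (eY := eY) (Λ := 2 + k + k * (2 * o + 1)) (w := w) hβ
  unfold inM
  refine tbM_congr fun j hj => ?_
  have h1 : dig β _ j = dig β _ j := congrArg (fun z => dig β z j) h
  unfold initV at h1
  rw [dig_tab (fun _ _ => Nat.mod_lt _ (by omega)) hj, dig_tab (fun _ _ => hlt _) hj] at h1
  exact h1

theorem nrecM_eq {o β : ℕ} {w : List Bool} (hR : ∀ t, InR o (M.run w t))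
    (hβ : a + q + 2 * o + w.length + 3 ≤ β) (hq : q ^ k ≤ β) (t : ℕ) :
    nrec (inM k (eS M.start) (eY M.blank) o β q (β ^ (2 + k))) (fun _ R => stM k q (q ^ k)
      (a + q + 4) (TT M eS eY) o β (num w) (β ^ (2 + k)) R) t =
      tbM β q (2 + k) (k * (2 * o + 1)) (β ^ (2 + k)) (encC M eS eY o (M.run w t)) ∧
      (M.run w t).inp ≤ w.length + 1 := by
  induction t with
  | zero => exact ⟨inM_eq hβ, Nat.zero_le _⟩
  | succ t ih =>
    rw [nrec_succ, ih.1]
    refine ⟨stM_eq (hR t) (hR (t + 1)) ih.2 hβ hq, ?_⟩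
    show ((M.next w (M.run w t)).getD (M.run w t)).inp ≤ _
    unfold TM.next
    rcases M.step (M.run w t).state (inputSym w (M.run w t).inp)
      (fun i => (M.run w t).tape i ((M.run w t).head i)) with _ | r
    · exact ih.2
    · exact inputMove_le _ _ ih.2

end

/-- The result of the simulation after `N` steps. -/
def rnM (k q qk st b0 B0 T acc o β P N x : ℕ) : ℕ :=
  dig 2 acc (dig β (nrec (inM k st b0 o β q P) (fun _ R => stM k q qk B0 T o β x P R) N) 0)

/-- **The simulation in mixed radix.** -/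
theorem rnM_spec {L : Set (List Bool)} (hL : DLINSPACE L) :
    ∃ k q qk st b0 B0 T acc c : ℕ, 0 < q ∧ ∀ (w : List Bool) (o β N : ℕ),
      c * (w.length + 1) ≤ o → c + 2 * o + w.length + 3 ≤ β →
      β ^ (2 + k) * q ^ (k * (2 * o + 1)) ≤ N →
      (rnM k q qk st b0 B0 T acc o β (β ^ (2 + k)) N (num w) = 1 ↔ w ∈ L) := by
  classical
  obtain ⟨k, M, c, hM⟩ := hL
  have := M.finState
  have := M.finSym
  obtain ⟨a, ⟨eS⟩⟩ := Finite.exists_equiv_fin M.State
  obtain ⟨q, ⟨eY⟩⟩ := Finite.exists_equiv_fin M.Sym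
  have hq0 : 0 < q := lt_of_le_of_lt (Nat.zero_le _) (eY M.blank).2
  refine ⟨k, q, q ^ k, eS M.start, eY M.blank, a + q + 4, TT M eS eY,
    tab 2 a (fun i => if decS M eS i ∈ M.accept then 1 else 0), c + a + q + q ^ k, hq0, ?_⟩
  intro w o β N ho hβ hN
  obtain ⟨⟨t, ht, hacc⟩, hspace⟩ := hM w
  have hR : ∀ t, InR o (M.run w t) := by
    intro t i
    refine (hspace t i).trans ?_
    have h1 : c * (w.length + 1) ≤ (c + a + q + q ^ k) * (w.length + 1) :=
      Nat.mul_le_mul_right _ (by omega)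
    exact_mod_cast h1.trans ho
  have hβ1 : a + q + 2 * o + w.length + 3 ≤ β := by omega
  have hβ0 : 0 < β := by omega
  have hq1 : q ^ k ≤ β := by omega
  have hrec := fun t => nrecM_eq (eS := eS) (eY := eY) hR hβ1 hq1 t
  unfold rnM
  set R : ℕ → ℕ := fun t => nrec (inM k (eS M.start) (eY M.blank) o β q (β ^ (2 + k)))
    (fun _ R => stM k q (q ^ k) (a + q + 4) (TT M eS eY) o β (num w) (β ^ (2 + k)) R) t with hRdef
  have hRt : ∀ t, R t = tbM β q (2 + k) (k * (2 * o + 1)) (β ^ (2 + k))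
      (encC M eS eY o (M.run w t)) := fun t => (hrec t).1
  have hlt : ∀ t idx, encC M eS eY o (M.run w t) idx < β := fun t idx =>
    encC_lt (hR t) (hrec t).2 hβ1 idx
  have hRlt : ∀ t, R t < N := fun t => by
    rw [hRt]
    exact (tbM_lt hβ0 hq0).trans_le hN
  -- halting is visible in the numbers
  have hhalt : ∀ t, (M.next w (M.run w t) = none ↔
      dig (a + q + 4) (TT M eS eY) (bsD k q (q ^ k) o β (num w)
        (dgM β q (2 + k) (2 + k + k * (2 * o + 1)) (β ^ (2 + k)) (R t))) = 0) := by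
    intro t
    rw [hRt, dgM_enc (hR t) (hrec t).2 hβ1, ← bsV_eq_bsD,
      bsV_eq (hR t) (hrec t).2 hβ1 hq1 le_rfl]
    have h1 := dig_TT M eS eY (f := 0) (eS (M.run w t).state).2
      (codeO_lt (inputSym w (M.run w t).inp))
      (tab_lt (q := q) (m := k)
        (d := fun i => symN M eY o (M.run w t) i (headN M o (M.run w t) i))
        (fun i _ => symN_lt (eY := eY) _ _)) (by omega)
    rw [add_zero] at h1
    rw [h1, tbl_eq (hR t)]
    unfold TM.next
    rcases M.step (M.run w t).state (inputSym w (M.run w t).inp)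
      (fun i => (M.run w t).tape i ((M.run w t).head i)) with _ | r
    · simp
    · simp [ent]
  obtain ⟨t0, ht0, hP⟩ := iterate_find (R := R)
    (g := fun R => stM k q (q ^ k) (a + q + 4) (TT M eS eY) o β (num w) (β ^ (2 + k)) R)
    (fun t => rfl) hRlt (P := fun x => dig (a + q + 4) (TT M eS eY)
      (bsD k q (q ^ k) o β (num w)
        (dgM β q (2 + k) (2 + k + k * (2 * o + 1)) (β ^ (2 + k)) x)) = 0) ⟨t, (hhalt t).1 ht⟩
  have hh0 : M.next w (M.run w t0) = none := (hhalt t0).2 hP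
  have hstay : ∀ t1, M.next w (M.run w t1) = none → ∀ s, M.run w (t1 + s) = M.run w t1 := by
    intro t1 h1 s
    induction s with
    | zero => rfl
    | succ s ih =>
      show (M.next w (M.run w (t1 + s))).getD (M.run w (t1 + s)) = _
      rw [ih, h1]
      rfl
  have hrun : M.run w N = M.run w t := by
    have h1 := hstay t0 hh0 (N - t0)
    have h2 : t0 + (N - t0) = N := by omega
    rw [h2] at h1
    rw [h1]
    rcases le_total t0 t with h | h
    · have := hstay t0 hh0 (t - t0)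
      rw [Nat.add_sub_cancel' h] at this
      exact this.symm
    · have := hstay t ht (t0 - t)
      rw [Nat.add_sub_cancel' h] at this
      exact this
  have hfin : dig β (R N) 0 = eS (M.run w t).state := by
    have h3 : dig β (R N) 0 = encC M eS eY o (M.run w N) 0 % β := by
      rw [hRt]
      unfold tbM
      exact dig_add_pow (fun _ _ => Nat.mod_lt _ hβ0) _ (by omega)
    rw [h3, Nat.mod_eq_of_lt (hlt _ _), hrun]
    rfl
  have hacc2 : dig 2 (tab 2 a (fun i => if decS M eS i ∈ M.accept then 1 else 0))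
      (eS (M.run w t).state) = if (M.run w t).state ∈ M.accept then 1 else 0 := by
    rw [dig_tab (fun i _ => by split_ifs <;> norm_num) (eS (M.run w t).state).2, decS_eS]
  show dig 2 _ (dig β (R N) 0) = 1 ↔ _
  rw [hfin, hacc2, hacc]
  split_ifs with h <;> simp [h]

/-! ### The simulation is a linear-space function -/

variable {α : Type} [Ctx α]

@[fun_prop]
theorem LS.dgM {β q u Λ P R j : α → ℕ} (hβ : LS β) (hq : LS q) (hu : LS u) (hΛ : LS Λ) (hP : LS P)
    (hR : LS R) (hj : LS j) :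
    LS (fun a => dgM (β a) (q a) (u a) (Λ a) (P a) (R a) (j a)) := by
  unfold DLS.dgM
  fun_prop

theorem dgM_le (β q u Λ P R j : ℕ) : dgM β q u Λ P R j ≤ R := by
  unfold dgM dig ifz
  split_ifs
  · exact Nat.zero_le _
  · exact (Nat.mod_le _ _).trans ((Nat.div_le_self _ _).trans (Nat.div_le_self _ _))
  · exact (Nat.mod_le _ _).trans (Nat.div_le_self _ _)

theorem LS.bsM {k q qk : ℕ} {o β Λ x P R : α → ℕ} (ho : LS o) (hβ : LS β) (hΛ : LS Λ) (hx : LS x)
    (hP : LS P) (hR : LS R) :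
    LS (fun a => bsD k q qk (o a) (β a) (x a) (DLS.dgM (β a) q (2 + k) (Λ a) (P a) (R a))) := by
  have hs : LS (fun a => syD k q (o a) (β a) (DLS.dgM (β a) q (2 + k) (Λ a) (P a) (R a))) := by
    unfold syD
    refine LS.sum_le (N := fun _ => k) (B := fun a => (R a + 1) * (β a + 1))
      (f := fun a i => DLS.dgM (β a) q (2 + k) (Λ a) (P a) (R a) (2 + k + i * (2 * o a + 1) +
        DLS.dgM (β a) q (2 + k) (Λ a) (P a) (R a) (2 + i)) * capPow q i (β a))
      (by fun_prop) (by fun_prop) (by fun_prop) ?_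
    intro a i _
    exact Nat.mul_le_mul ((dgM_le _ _ _ _ _ _ _).trans (Nat.le_succ _)) (min_le_right _ _)
  unfold bsD
  fun_prop

theorem LS.ndM {k q B0 T : ℕ} {o β Λ x P R bs idx : α → ℕ} (ho : LS o) (hβ : LS β) (hΛ : LS Λ)
    (hx : LS x) (hP : LS P) (hR : LS R) (hbs : LS bs) (hidx : LS idx) :
    LS (fun a => ndD k B0 T (o a) (x a) (DLS.dgM (β a) q (2 + k) (Λ a) (P a) (R a)) (bs a)
      (idx a)) := by
  unfold ndD
  fun_prop

theorem LS.tbM {q u : ℕ} {β v P C : α → ℕ} {D : α → ℕ → ℕ} (hβ : LS β) (hv : LS v) (hP : LS P)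
    (hC : LS C) (hD : LS (fun p : α × ℕ => D p.1 p.2)) (hβ0 : ∀ a, 0 < β a) (hq : 0 < q)
    (hb1 : ∀ a, q ^ v a ≤ C a) : LS (fun a => tbM (β a) q u (v a) (P a) (D a)) := by
  unfold DLS.tbM
  refine LS.add ?_ (LS.mul hP ?_)
  · refine LS.tab (q := β) (m := fun _ => u) (C := fun a => β a ^ u)
      (d := fun a j => D a j % β a) ?_ hβ (LS.const u) (LS.pow_const hβ u)
      (fun a i _ => Nat.mod_lt _ (hβ0 a)) (fun a => le_rfl)
    exact LS.mod hD (by fun_prop)
  · refine LS.tab (q := fun _ => q) (m := v) (C := C)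
      (d := fun a j => D a (u + j) % q) ?_ (LS.const q) hv hC
      (fun a i _ => Nat.mod_lt _ hq) hb1
    have h1 : LS (fun p : α × ℕ => D (p.1, u + p.2).1 (p.1, u + p.2).2) :=
      LS.comp (f := fun p : α × ℕ => (p.1, u + p.2)) (g := fun p : α × ℕ => D p.1 p.2) hD
        (by fun_prop)
    exact LS.mod h1 (LS.const q)

theorem LS.rnM {k q qk st b0 B0 T acc : ℕ} {o β N x C : α → ℕ} (ho : LS o) (hβ : LS β) (hN : LS N)
    (hx : LS x) (hC : LS C) (hβ0 : ∀ a, 0 < β a) (hq : 0 < q)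
    (hb : ∀ a, q ^ (k * (2 * o a + 1)) ≤ C a) :
    LS (fun a => rnM k q qk st b0 B0 T acc (o a) (β a) (β a ^ (2 + k)) (N a) (x a)) := by
  have hP : LS (fun a => β a ^ (2 + k)) := LS.pow_const hβ _
  have hbb : ∀ (a : α) (D : ℕ → ℕ), DLS.tbM (β a) q (2 + k) (k * (2 * o a + 1)) (β a ^ (2 + k)) D ≤
      β a ^ (2 + k) * C a := fun a D =>
    (tbM_lt (hβ0 a) hq).le.trans (Nat.mul_le_mul_left _ (hb a))
  unfold DLS.rnM
  refine LS.dig (LS.const 2) (LS.const acc) (LS.dig hβ ?_ (LS.const 0))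
  refine LS.nrec (G := fun a => inM k st b0 (o a) (β a) q (β a ^ (2 + k)))
    (N := N) (C := fun a => β a ^ (2 + k) * C a)
    (K := fun a _ R => stM k q qk B0 T (o a) (β a) (x a) (β a ^ (2 + k)) R) ?_ hN
    (LS.mul hP hC) ?_ ?_
  · unfold inM
    exact LS.tbM (β := β) (v := fun a => k * (2 * o a + 1)) (P := fun a => β a ^ (2 + k))
      (C := C) (D := fun a idx => ifz idx st (ifz (idx - 1) 0 (ifz (lt01 idx (2 + k))
        (ifz (lt01 idx (2 + k + k * (2 * o a + 1))) 0 b0) (o a))) % β a)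
      hβ (by fun_prop) hP hC (by fun_prop) hβ0 hq hb
  · unfold stM
    have hP2 : LS (fun z : α × ℕ × ℕ => β z.1 ^ (2 + k)) := LS.comp (g := fun a => β a ^ (2 + k))
      (f := fun z : α × ℕ × ℕ => z.1) hP LS.fst
    refine LS.tbM (α := α × ℕ × ℕ) (β := fun z => β z.1) (v := fun z => k * (2 * o z.1 + 1))
      (P := fun z => β z.1 ^ (2 + k)) (C := fun z => C z.1)
      (D := fun z idx => ndD k B0 T (o z.1) (x z.1)
        (DLS.dgM (β z.1) q (2 + k) (2 + k + k * (2 * o z.1 + 1)) (β z.1 ^ (2 + k)) z.2.2)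
        (bsD k q qk (o z.1) (β z.1) (x z.1)
          (DLS.dgM (β z.1) q (2 + k) (2 + k + k * (2 * o z.1 + 1)) (β z.1 ^ (2 + k)) z.2.2)) idx %
          β z.1) (by fun_prop) (by fun_prop) hP2 (by fun_prop) ?_ (fun z => hβ0 z.1) hq
      (fun z => hb z.1)
    have hP3 : LS (fun z : (α × ℕ × ℕ) × ℕ => β z.1.1 ^ (2 + k)) :=
      LS.comp (g := fun a => β a ^ (2 + k)) (f := fun z : (α × ℕ × ℕ) × ℕ => z.1.1) hP (by fun_prop)
    refine LS.mod ?_ (by fun_prop)
    refine LS.ndM (k := k) (q := q) (B0 := B0) (T := T) (o := fun z : (α × ℕ × ℕ) × ℕ => o z.1.1)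
      (β := fun z => β z.1.1) (Λ := fun z => 2 + k + k * (2 * o z.1.1 + 1)) (x := fun z => x z.1.1)
      (P := fun z => β z.1.1 ^ (2 + k)) (R := fun z => z.1.2.2) (idx := fun z => z.2)
      (by fun_prop) (by fun_prop) (by fun_prop) (by fun_prop) hP3 (by fun_prop) ?_ (by fun_prop)
    exact LS.bsM (k := k) (q := q) (qk := qk) (o := fun z : (α × ℕ × ℕ) × ℕ => o z.1.1)
      (β := fun z => β z.1.1) (Λ := fun z => 2 + k + k * (2 * o z.1.1 + 1)) (x := fun z => x z.1.1)
      (P := fun z => β z.1.1 ^ (2 + k)) (R := fun z => z.1.2.2)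
      (by fun_prop) (by fun_prop) (by fun_prop) (by fun_prop) hP3 (by fun_prop)
  · intro a i _
    rcases i with _ | i
    · exact hbb a _
    · rw [nrec_succ]
      exact hbb a _

/-- **The characteristic function of a language in linear space is a linear-space function.** -/
theorem dls {L : Set (List Bool)} (hL : DLINSPACE L) :
    ∃ F : ℕ → ℕ, LS F ∧ (∀ x, F x < 2) ∧ ∀ w, F (num w) = 1 ↔ w ∈ L := by
  obtain ⟨k, q, qk, st, b0, B0, T, acc, c, hq, h⟩ := rnM_spec hL
  obtain ⟨m, hm⟩ : ∃ m, q ^ (k * (2 * c + 1)) ≤ 2 ^ m := by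
    exact ⟨q ^ (k * (2 * c + 1)), Nat.lt_two_pow_self.le⟩
  let o : ℕ → ℕ := fun x => c * (Nat.log 2 x + 1)
  let β : ℕ → ℕ := fun x => c + 2 * o x + Nat.log 2 x + 3
  let C : ℕ → ℕ := fun x => (2 * (x + 1)) ^ m
  have ho : LS o := by
    show LS fun x => c * (Nat.log 2 x + 1)
    fun_prop
  have hβ : LS β := by
    show LS fun x => c + 2 * o x + Nat.log 2 x + 3
    fun_prop
  have hC : LS C := LS.pow_const (by fun_prop) _
  have hb : ∀ x, q ^ (k * (2 * o x + 1)) ≤ C x := by
    intro x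
    have e1 : k * (2 * o x + 1) ≤ k * (2 * c + 1) * (Nat.log 2 x + 1) := by
      show k * (2 * (c * (Nat.log 2 x + 1)) + 1) ≤ _
      rw [mul_assoc]
      refine Nat.mul_le_mul_left _ ?_
      ring_nf
      omega
    calc q ^ (k * (2 * o x + 1)) ≤ q ^ (k * (2 * c + 1) * (Nat.log 2 x + 1)) :=
          Nat.pow_le_pow_right hq e1
      _ = (q ^ (k * (2 * c + 1))) ^ (Nat.log 2 x + 1) := pow_mul _ _ _
      _ ≤ (2 ^ m) ^ (Nat.log 2 x + 1) := Nat.pow_le_pow_left hm _
      _ = (2 ^ (Nat.log 2 x + 1)) ^ m := by rw [← pow_mul, ← pow_mul, mul_comm]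
      _ ≤ (2 * (x + 1)) ^ m := by
          refine Nat.pow_le_pow_left ?_ _
          rw [pow_succ, mul_comm]
          refine Nat.mul_le_mul_left _ ?_
          rcases Nat.eq_zero_or_pos x with h0 | h0
          · rw [h0]
            simp
          · exact (Nat.pow_log_le_self 2 h0.ne').trans (Nat.le_succ _)
  refine ⟨fun x => rnM k q qk st b0 B0 T acc (o x) (β x) (β x ^ (2 + k))
    (β x ^ (2 + k) * C x) x, ?_, fun x => dig_lt (by norm_num) _ _, fun w => ?_⟩
  · exact LS.rnM (k := k) (q := q) (o := o) (β := β) (N := fun x => β x ^ (2 + k) * C x)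
      (x := fun x => x) (C := C) ho hβ (LS.mul (LS.pow_const hβ _) hC) LS.id hC
      (fun x => by show 0 < c + 2 * o x + Nat.log 2 x + 3; omega) hq hb
  · refine h w _ _ _ ?_ ?_ ?_
    · show c * (w.length + 1) ≤ c * (Nat.log 2 (num w) + 1)
      rw [log_num]
    · show c + 2 * o (num w) + w.length + 3 ≤ c + 2 * o (num w) + Nat.log 2 (num w) + 3
      rw [log_num]
    · exact Nat.mul_le_mul_left _ (hb _)

theorem dls_iff {L : Set (List Bool)} :
    DLINSPACE L ↔ ∃ F : ℕ → ℕ, LS F ∧ ∀ w, w ∈ L ↔ F (num w) ≠ 0 := by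
  constructor
  · intro h
    obtain ⟨F, hF, hlt, hF2⟩ := dls h
    refine ⟨F, hF, fun w => ?_⟩
    have := hlt (num w)
    have := hF2 w
    rw [← this]
    omega
  · rintro ⟨F, hF, h⟩
    exact LS.dlinspace hF L h

end Pool.Agent.Helper31.DLS
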